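import Mathlib
import Pool.Agent.Lib.Pb736bc.Defs
import Pool.Agent.Lib.Pb736bc.Super

namespace Pool.Agent.Lib.Reserve.MP_b736bc_co.LinearGrowth

open Pool.Agent.Lib.Pb736bc SimpleGraph Filter Topology

/-- **Classification of linear growth, and existence of the limit.**
Let `u, Δ, ω ≥ 1` and let `H` be a finite graph containing `K_u`.
(1) If `H` contains a member of `{K_u ∨ I_{Δ+1}, K_{ω+1}}`, all values `𝒩(H,G)` are `0`.
(2) If `H` contains no member of the family and is `u`-generated, then the maximum `ex p` exists for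
every `p`, and `ex p / p` converges to a real number `P > 0` (and `ex p ≤ P p` for all `p`).
(3) If `H` contains no member of the family and is not `u`-generated, then
`ex_u(p, H, ·) ≥ c p ^ α` for some `α > 1`, `c > 0` and all large `p`. -/
theorem result (u Δ ω : ℕ) (hu : 1 ≤ u) {W : Type} [Fintype W]
    (H : SimpleGraph W) (hK : (⊤ : SimpleGraph (Fin u)) ⊑ H) :
    (¬ InClass u Δ ω H → ∀ p : ℕ, ∀ N ∈ countSet u Δ ω H p, N = 0) ∧
    (InClass u Δ ω H → UGenerated H u →
      ∃ (ex : ℕ → ℕ) (P : ℝ), 0 < P ∧ (∀ p, IsGreatest (countSet u Δ ω H p) (ex p)) ∧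
        Tendsto (fun p : ℕ => (ex p : ℝ) / p) atTop (𝓝 P) ∧ ∀ p : ℕ, (ex p : ℝ) ≤ P * p) ∧
    (InClass u Δ ω H → ¬ UGenerated H u →
      ∃ α : ℝ, 1 < α ∧ ∃ c : ℝ, 0 < c ∧ ∀ᶠ p : ℕ in atTop,
        ∃ N ∈ countSet u Δ ω H p, c * (p : ℝ) ^ α ≤ N) := by
  refine ⟨?_, ?_, fun hH hng => superlinear hu hK hH hng⟩
  · rintro hH p N ⟨V, _, G, hG, -, rfl⟩
    rw [copyCount_eq_zero]
    intro hHG
    apply hH
    exact ⟨fun h => hG.1 (h.trans hHG), fun h => hG.2 (h.trans hHG)⟩
  · intro hH hgen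
    have hgen' := hgen
    obtain ⟨Q, hQ, -⟩ := hgen'
    have huω : u ≤ ω := by
      by_contra hcon
      push Not at hcon
      have h1 := (inClass_iff u Δ ω H).mp hH
      exact (h1.2.mono (by omega : ω + 1 ≤ u)) Q hQ
    have hWne : Nonempty W := by
      have : Q.Nonempty := by rw [← Finset.card_pos, hQ.card_eq]; omega
      exact ⟨this.choose⟩
    exact limit_exists hu huω hH hgen

end Pool.Agent.Lib.Reserve.MP_b736bc_co.LinearGrowth
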